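import Pool.Agent.helper61.Y2.Spec

set_option autoImplicit false

namespace H61.Y2

open H61.Yorioka Cardinal

theorem GD_num (N : ℕ) (hN : 6 ≤ N) : 4 * (2 * N + 4) ≤ 2 ^ N := by
  induction N, hN using Nat.le_induction with
  | base => norm_num
  | succ n hn ih =>
    rw [pow_succ]
    omega

theorem GD (hTLS : TLS_stmt) : GD_stmt := by
  classical
  intro f hf T hT
  by_contra hno
  push Not at hno
  obtain ⟨N₀, hN₀⟩ := hTLS f hf T hT
  set N : ℕ := max N₀ 6 with hN
  have h6 : 6 ≤ N := le_max_right _ _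
  have hbad : ∀ q : List Bool, ∃ F : Finset (List Bool),
      (∀ t ∈ F, t ∈ T ∧ q <+: t ∧ q.length < t.length) ∧
        (1 / 2 : ℝ) ^ q.length < 4 * ∑ t ∈ F, (1 / 2 : ℝ) ^ t.length := by
    intro q
    have := hno q
    unfold Good at this
    push Not at this
    exact this
  choose F hF1 hF2 using hbad
  have hdisj : ∀ q ∈ level (f N), ∀ q' ∈ level (f N), q ≠ q' → Disjoint (F q) (F q') := by
    intro q hq q' hq' hne
    rw [Finset.disjoint_left]
    intro t ht ht'
    have e1 := (hF1 q t ht).2.1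
    have e2 := (hF1 q' t ht').2.1
    have l1 := mem_level.1 hq
    have l2 := mem_level.1 hq'
    exact hne (List.IsPrefix.eq_of_length (List.prefix_of_prefix_length_le e1 e2 (by omega))
      (by omega))
  have hsum : ∑ t ∈ (level (f N)).biUnion F, (1 / 2 : ℝ) ^ t.length =
      ∑ q ∈ level (f N), ∑ t ∈ F q, (1 / 2 : ℝ) ^ t.length :=
    Finset.sum_biUnion (fun q hq q' hq' hne => hdisj q hq q' hq' hne)
  have hup : ∑ t ∈ (level (f N)).biUnion F, (1 / 2 : ℝ) ^ t.length ≤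
      (2 * N + 4) * (1 / 2) ^ f N := by
    refine hN₀ N (le_max_left _ _) _ ?_
    intro t ht
    obtain ⟨q, hq, htq⟩ := Finset.mem_biUnion.1 ht
    obtain ⟨e1, -, e3⟩ := hF1 q t htq
    have l1 := mem_level.1 hq
    exact ⟨e1, by omega⟩
  have hne : (level (f N)).Nonempty := by
    rw [← Finset.card_pos, card_level]
    positivity
  have hlo : ∑ q ∈ level (f N), (1 / 2 : ℝ) ^ f N / 4 <
      ∑ q ∈ level (f N), ∑ t ∈ F q, (1 / 2 : ℝ) ^ t.length := by
    refine Finset.sum_lt_sum_of_nonempty hne (fun q hq => ?_)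
    have := hF2 q
    rw [mem_level.1 hq] at this
    linarith
  have hpow : (2 : ℝ) ^ f N * (1 / 2) ^ f N = 1 := by
    rw [← mul_pow]; norm_num
  rw [Finset.sum_const, card_level, nsmul_eq_mul] at hlo
  push_cast at hlo
  have h1 : (2 : ℝ) ^ f N * ((1 / 2) ^ f N / 4) = 1 / 4 := by
    rw [← mul_div_assoc, hpow]
  rw [h1] at hlo
  have h2 : (4 : ℝ) * (2 * N + 4) ≤ 2 ^ f N := by
    have e1 := GD_num N h6
    have e2 : N ≤ f N := hf.le_apply
    have e3 : (4 : ℝ) * (2 * N + 4) ≤ 2 ^ N := by exact_mod_cast e1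
    exact e3.trans (pow_le_pow_right₀ (by norm_num) e2)
  have h3 : (0 : ℝ) < (1 / 2) ^ f N := by positivity
  have h4 : (4 : ℝ) * (2 * N + 4) * (1 / 2) ^ f N ≤ 1 := by
    calc (4 : ℝ) * (2 * N + 4) * (1 / 2) ^ f N ≤ 2 ^ f N * (1 / 2) ^ f N :=
          mul_le_mul_of_nonneg_right h2 h3.le
      _ = 1 := hpow
  rw [hsum] at hup
  linarith

end H61.Y2
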